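import Mathlib

/-! Definitions for Turán's `(3,4)`-problem: `K_4^3`-free 3-graphs, Turán's construction, crossing
neighbourhoods of pairs, and the VC-dimension of link graphs. -/

set_option autoImplicit false
open Finset
open scoped Classical

namespace Pool.Agent.H22.T34

variable {n : ℕ}

/-- The 3-graph `H` has no four vertices spanning all four triples. -/
def K43Free (H : Finset (Finset (Fin n))) : Prop :=
  ∀ S : Finset (Fin n), S.card = 4 → ∃ s ⊆ S, s.card = 3 ∧ s ∉ H

/-- Turán's construction for the division of the vertices into the parts `g = 0`, `g = 1`, `g = 2`: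
the triples that meet all three parts, and the triples with two vertices in one part and one vertex
in the following part, where part 0 follows part 2. -/
def turan (g : Fin n → Fin 3) : Finset (Finset (Fin n)) :=
  ((univ : Finset (Fin n)).powersetCard 3).filter fun t =>
    (∀ p, ∃ i ∈ t, g i = p) ∨
      ∃ p, (t.filter fun i => g i = p).card = 2 ∧ (t.filter fun i => g i = p + 1).card = 1

/-- The condition `P` (with a small parameter `δ`) forces Turán's bound and stability for
`K_4^3`-free 3-graphs: for every `ε > 0` there are `δ > 0` and `n0` such that every `K_4^3`-free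
3-graph `H` on `n ≥ n0` vertices with the property `P n H δ` has at most `(5/9 + ε) C(n,3)` edges and
satisfies `|H ∆ turan g| ≤ 1161216000 ((5/54) n³ - |H|) + ε n³` for some division `g`. -/
def Forces (P : ∀ n : ℕ, Finset (Finset (Fin n)) → ℝ → Prop) : Prop :=
  ∀ ε : ℝ, 0 < ε → ∃ δ : ℝ, 0 < δ ∧ ∃ n0 : ℕ, ∀ n, n0 ≤ n → ∀ H : Finset (Finset (Fin n)),
    (∀ e ∈ H, e.card = 3) → K43Free H → P n H δ →
    (H.card : ℝ) ≤ (5 / 9 + ε) * (n.choose 3 : ℝ) ∧ ∃ g : Fin n → Fin 3,
      ((symmDiff H (turan g)).card : ℝ) ≤
        1161216000 * (5 / 54 * (n : ℝ) ^ 3 - H.card) + ε * (n : ℝ) ^ 3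

end Pool.Agent.H22.T34
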