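import Pool.Graph.R_pool_sql_team_seeded_2aa45f1a.Q275.TC.Tree

/-! Crossing neighbourhoods (generated data, checked by the kernel). -/

set_option autoImplicit false
set_option maxRecDepth 100000
set_option maxHeartbeats 4000000

namespace Pool.Agent.H22.T34
open Pool.Agent.Q275.TC
open Pool.Agent.Y47.BU
open Pool.Agent.TH773.ST

/-- crossing neighbourhoods of the pairs `01` and `02` -/
def PA : Sp := ⟨7, [(0, 1, 3), (0, 2, 3), (0, 1, 4), (0, 2, 4), (0, 1, 5), (0, 2, 5), (0, 1, 6), (0, 2, 6)],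
  fun l => decide (l = [0, 0, 1, 0, 0, 1, 1, 1])⟩

/-- crossing neighbourhoods of the pairs `01` and `23` -/
def PB : Sp := ⟨8, [(0, 1, 4), (2, 3, 4), (0, 1, 5), (2, 3, 5), (0, 1, 6), (2, 3, 6), (0, 1, 7), (2, 3, 7)],
  fun l => decide (l = [0, 0, 1, 0, 0, 1, 1, 1])⟩

theorem okPA : PA.Ok := by unfold Sp.Ok; decide
theorem okPB : PB.Ok := by unfold Sp.Ok; decide

theorem treeA : ∀ m ∈ famM 2, ∃ tr, chkQ PA m [] tr = true := by
  intro m hm
  simp only [famM, List.mem_cons, List.not_mem_nil, or_false] at hm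
  rcases hm with rfl | rfl
  · exact ⟨(.n 10 (.f 559820) (.n 25 (.n 6 (.n 26 (.n 27 (.n 8 (.n 1 (.f 1323649) (.n 4 (.f 438292) (.k 8421440))) (.k 8454728)) (.f 543324)) (.f 920204)) (.k 8389192)) (.k 8782408))), by decide +kernel⟩
  · exact ⟨(.n 2 (.f 280386) (.n 12 (.n 13 (.f 1455114) (.n 17 (.n 8 (.f 47434) (.k 4522568)) (.f 345922))) (.k 4522048))), by decide +kernel⟩

theorem treeB : ∀ m ∈ famM 2, ∃ tr, chkQ PB m [] tr = true := by
  intro m hm
  simp only [famM, List.mem_cons, List.not_mem_nil, or_false] at hm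
  rcases hm with rfl | rfl
  · exact ⟨(.n 4 (.f 3506466) (.n 1 (.n 2 (.n 3 (.n 24 (.f 3522832) (.k 8781888)) (.f 7372842)) (.f 5275677)) (.k 8421440))), by decide +kernel⟩
  · exact ⟨(.n 2 (.f 2243216) (.n 12 (.n 19 (.f 11613195) (.n 23 (.n 13 (.f 11640970) (.n 17 (.n 16 (.f 1419362) (.f 3155115)) (.f 3223722))) (.f 3252395))) (.k 4522048))), by decide +kernel⟩

end Pool.Agent.H22.T34
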