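import Pool.Agent.H22.T34.VCDefs
import Pool.Agent.H22.T34.VCDat

/-! Turán's bound and stability for 3-graphs with few crossing neighbourhoods of pairs. -/

set_option autoImplicit false
set_option maxRecDepth 100000
set_option maxHeartbeats 4000000
open Finset
open scoped Classical

namespace Pool.Agent.H22.T34
open Pool.Agent.Q275.TC
open Pool.Agent.Y47.BU
open Pool.Agent.H122R2.N6 hiding K43Free
open Pool.Agent.TH773.ST

variable {n : ℕ}

theorem k43_iff {H : Finset (Finset (Fin n))} : K43Free H ↔ Pool.Agent.TH773.Turan34.K43Free H :=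
  Iff.rfl

theorem turan_eq (g : Fin n → Fin 3) : turan g = Pool.Agent.TH773.Turan34.turan g := rfl

/-- the engine in the form used here -/
theorem forces_of (i : Fin 5) {P : Sp} (hL : P.Ok) (h : ∀ m ∈ famM i, ∃ tr, chkQ P m [] tr = true)
    (C : ∀ n : ℕ, Finset (Finset (Fin n)) → ℝ → Prop)
    (hC : ∀ (n : ℕ) (H : Finset (Finset (Fin n))) (δ : ℝ), C n H δ →
      ((sS (P.S (Fin n) (tri H))).card : ℝ) ≤ δ * (n : ℝ) ^ P.k) : Forces C := by
  intro ε hε
  obtain ⟨δ, hδ, n0, h1⟩ := bound i hL h hε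
  exact ⟨δ, hδ, n0, fun n hn H h3 hK hP => h1 n hn H h3 hK (hC n H δ hP)⟩

theorem mem_nbhd {H : Finset (Finset (Fin n))} {a b w : Fin n} :
    w ∈ nbhd H a b ↔ ({a, b, w} : Finset (Fin n)) ∈ H := by
  unfold nbhd; simp

theorem tri_zero {H : Finset (Finset (Fin n))} {a b c : Fin n} :
    tri H a b c = 0 ↔ ({a, b, c} : Finset (Fin n)) ∉ H := by
  rw [← tri_iff]
  rcases (tri_sy H).b a b c with e | e <;> rw [e] <;> simp

theorem cross_iff {H : Finset (Finset (Fin n))} {a b c d : Fin n} {w : Fin 4 → Fin n} :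
    Cross (nbhd H a b) (nbhd H c d) w ↔
      [tri H a b (w 0), tri H c d (w 0), tri H a b (w 1), tri H c d (w 1),
        tri H a b (w 2), tri H c d (w 2), tri H a b (w 3), tri H c d (w 3)] =
        [0, 0, 1, 0, 0, 1, 1, 1] := by
  unfold Cross
  simp only [mem_nbhd, List.cons.injEq, and_true, tri_zero, tri_iff]
  tauto

theorem cardA (H : Finset (Finset (Fin n))) :
    (sS (PA.S (Fin n) (tri H))).card ≤ crossCommon H := by
  unfold crossCommon
  refine card_le_card_of_injOn (fun f : Fin 7 → Fin n => (![f 0, f 1, f 2],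
    ![f 3, f 4, f 5, f 6])) ?_ ?_
  · intro f hf
    change Fin 7 → Fin n at f
    obtain ⟨hi0, hS⟩ := mem_sS.mp (mem_coe.mp hf)
    have hi : Function.Injective (f : Fin 7 → Fin n) := hi0
    have er : (![f 0, f 1, f 2] : Fin 3 → Fin n) = f ∘ ![0, 1, 2] := by
      funext i; fin_cases i <;> rfl
    have ec : (![f 3, f 4, f 5, f 6] : Fin 4 → Fin n) = f ∘ ![3, 4, 5, 6] := by
      funext i; fin_cases i <;> rfl
    refine mem_coe.mpr (mem_filter.mpr ⟨mem_univ _, ?_, ?_, ?_, ?_⟩)
    · change Function.Injective (![f 0, f 1, f 2] : Fin 3 → Fin n)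
      rw [er]
      exact hi.comp (by decide)
    · change Function.Injective (![f 3, f 4, f 5, f 6] : Fin 4 → Fin n)
      rw [ec]
      exact hi.comp (by decide)
    · intro i j
      change (![f 0, f 1, f 2] : Fin 3 → Fin n) i ≠ (![f 3, f 4, f 5, f 6] : Fin 4 → Fin n) j
      rw [er, ec]
      refine hi.ne ?_
      revert i j
      decide
    · change Cross (nbhd H (f 0) (f 1)) (nbhd H (f 0) (f 2)) ![f 3, f 4, f 5, f 6]
      rw [cross_iff]
      exact of_decide_eq_true hS
  · intro f _ f' _ h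
    change Fin 7 → Fin n at f f'
    have hr := (Prod.mk.inj h).1
    have hc := (Prod.mk.inj h).2
    have e0 : f 0 = f' 0 := congrFun hr 0
    have e1 : f 1 = f' 1 := congrFun hr 1
    have e2 : f 2 = f' 2 := congrFun hr 2
    have e3 : f 3 = f' 3 := congrFun hc 0
    have e4 : f 4 = f' 4 := congrFun hc 1
    have e5 : f 5 = f' 5 := congrFun hc 2
    have e6 : f 6 = f' 6 := congrFun hc 3
    funext i
    fin_cases i
    exacts [e0, e1, e2, e3, e4, e5, e6]

theorem cardB (H : Finset (Finset (Fin n))) :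
    (sS (PB.S (Fin n) (tri H))).card ≤ crossDisjoint H := by
  unfold crossDisjoint
  refine card_le_card_of_injOn (fun f : Fin 8 → Fin n => (![f 0, f 1, f 2, f 3],
    ![f 4, f 5, f 6, f 7])) ?_ ?_
  · intro f hf
    change Fin 8 → Fin n at f
    obtain ⟨hi0, hS⟩ := mem_sS.mp (mem_coe.mp hf)
    have hi : Function.Injective (f : Fin 8 → Fin n) := hi0
    have er : (![f 0, f 1, f 2, f 3] : Fin 4 → Fin n) = f ∘ ![0, 1, 2, 3] := by
      funext i; fin_cases i <;> rfl
    have ec : (![f 4, f 5, f 6, f 7] : Fin 4 → Fin n) = f ∘ ![4, 5, 6, 7] := by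
      funext i; fin_cases i <;> rfl
    refine mem_coe.mpr (mem_filter.mpr ⟨mem_univ _, ?_, ?_, ?_, ?_⟩)
    · change Function.Injective (![f 0, f 1, f 2, f 3] : Fin 4 → Fin n)
      rw [er]
      exact hi.comp (by decide)
    · change Function.Injective (![f 4, f 5, f 6, f 7] : Fin 4 → Fin n)
      rw [ec]
      exact hi.comp (by decide)
    · intro i j
      change (![f 0, f 1, f 2, f 3] : Fin 4 → Fin n) i ≠ (![f 4, f 5, f 6, f 7] : Fin 4 → Fin n) j
      rw [er, ec]
      refine hi.ne ?_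
      revert i j
      decide
    · change Cross (nbhd H (f 0) (f 1)) (nbhd H (f 2) (f 3)) ![f 4, f 5, f 6, f 7]
      rw [cross_iff]
      exact of_decide_eq_true hS
  · intro f _ f' _ h
    change Fin 8 → Fin n at f f'
    have hr := (Prod.mk.inj h).1
    have hc := (Prod.mk.inj h).2
    have e0 : f 0 = f' 0 := congrFun hr 0
    have e1 : f 1 = f' 1 := congrFun hr 1
    have e2 : f 2 = f' 2 := congrFun hr 2
    have e3 : f 3 = f' 3 := congrFun hr 3
    have e4 : f 4 = f' 4 := congrFun hc 0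
    have e5 : f 5 = f' 5 := congrFun hc 1
    have e6 : f 6 = f' 6 := congrFun hc 2
    have e7 : f 7 = f' 7 := congrFun hc 3
    funext i
    fin_cases i
    exacts [e0, e1, e2, e3, e4, e5, e6, e7]

theorem forcesA : Forces fun n H δ => (crossCommon H : ℝ) ≤ δ * (n : ℝ) ^ 7 := by
  refine forces_of 2 okPA treeA _ ?_
  intro n H δ h
  exact le_trans (by exact_mod_cast cardA H) h

theorem forcesB : Forces fun n H δ => (crossDisjoint H : ℝ) ≤ δ * (n : ℝ) ^ 8 := by
  refine forces_of 2 okPB treeB _ ?_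
  intro n H δ h
  exact le_trans (by exact_mod_cast cardB H) h

/-! ## The VC-dimension of the link graphs -/

theorem crossCommon_eq_zero {H : Finset (Finset (Fin n))} (h : LinkVCLe 1 H) :
    crossCommon H = 0 := by
  unfold crossCommon
  rw [card_eq_zero, filter_eq_empty_iff]
  rintro ⟨z, w⟩ - ⟨hz, -, hzw, hc⟩
  simp only at hz hzw hc
  have hne : z 1 ≠ z 2 := hz.ne (by decide)
  have h0 : z 0 ∉ ({z 1, z 2} : Finset (Fin n)) := by
    simp only [mem_insert, mem_singleton, not_or]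
    exact ⟨hz.ne (by decide), hz.ne (by decide)⟩
  have h1 : Shattered H (z 0) {z 1, z 2} := by
    intro B hB
    obtain ⟨⟨a0, b0⟩, ⟨a1, b1⟩, ⟨a2, b2⟩, ⟨a3, b3⟩⟩ := hc
    simp only [mem_nbhd] at a0 b0 a1 b1 a2 b2 a3 b3
    have key : ∀ (j : Fin 4) (p q : Prop), (({z 0, z 1, w j} : Finset (Fin n)) ∈ H ↔ p) →
        (({z 0, z 2, w j} : Finset (Fin n)) ∈ H ↔ q) →
        (z 1 ∈ B ↔ p) → (z 2 ∈ B ↔ q) →
        ∃ w, w ≠ z 0 ∧ w ∉ ({z 1, z 2} : Finset (Fin n)) ∧
          (({z 1, z 2} : Finset (Fin n)).filter fun x => ({z 0, w, x} : Finset (Fin n)) ∈ H) = B := by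
      intro j p q hp hq hp' hq'
      refine ⟨w j, (hzw 0 j).symm, ?_, ?_⟩
      · simp only [mem_insert, mem_singleton, not_or]
        exact ⟨(hzw 1 j).symm, (hzw 2 j).symm⟩
      · ext x
        simp only [mem_filter, mem_insert, mem_singleton]
        constructor
        · rintro ⟨rfl | rfl, hx⟩
          · rw [hp', ← hp]
            rwa [Finset.pair_comm (w j) (z 1)] at hx
          · rw [hq', ← hq]
            rwa [Finset.pair_comm (w j) (z 2)] at hx
        · intro hx
          have hxB := hB hx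
          simp only [mem_insert, mem_singleton] at hxB
          refine ⟨hxB, ?_⟩
          rcases hxB with rfl | rfl
          · rw [Finset.pair_comm, hp, ← hp']
            exact hx
          · rw [Finset.pair_comm, hq, ← hq']
            exact hx
    by_cases m1 : z 1 ∈ B <;> by_cases m2 : z 2 ∈ B
    · exact key 3 True True (iff_true_intro a3) (iff_true_intro b3) (iff_true_intro m1)
        (iff_true_intro m2)
    · exact key 1 True False (iff_true_intro a1) (iff_false_intro b1) (iff_true_intro m1)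
        (iff_false_intro m2)
    · exact key 2 False True (iff_false_intro a2) (iff_true_intro b2) (iff_false_intro m1)
        (iff_true_intro m2)
    · exact key 0 False False (iff_false_intro a0) (iff_false_intro b0) (iff_false_intro m1)
        (iff_false_intro m2)
  have h2 := h (z 0) {z 1, z 2} h0 h1
  rw [card_pair hne] at h2
  omega

theorem forcesVC : Forces fun _ H _ => LinkVCLe 1 H := by
  intro ε hε
  obtain ⟨δ, hδ, n0, h⟩ := forcesA ε hε
  refine ⟨δ, hδ, n0, fun n hn H h3 hK hs => h n hn H h3 hK ?_⟩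
  change (crossCommon H : ℝ) ≤ δ * (n : ℝ) ^ 7
  rw [crossCommon_eq_zero hs]
  simp only [Nat.cast_zero]
  positivity

/-! ## Turán's construction -/

/-- no crossing of the neighbourhoods of two pairs, by the classes of the vertices -/
theorem turan_noCross : ∀ a b c d : Fin 3, ∃ B ∈ ([[0, 0], [1, 0], [0, 1], [1, 1]] : List (List ℕ)),
    ∀ w : Fin 3, [Rf a b w, Rf c d w] ≠ B := by
  decide +kernel

theorem no_cross {g : Fin n → Fin 3} {a b c d : Fin n} {w : Fin 4 → Fin n} (hab : a ≠ b)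
    (hcd : c ≠ d) (h1 : ∀ j, a ≠ w j) (h2 : ∀ j, b ≠ w j) (h3 : ∀ j, c ≠ w j) (h4 : ∀ j, d ≠ w j) :
    ¬ Cross (nbhd (turan g) a b) (nbhd (turan g) c d) w := by
  rintro ⟨⟨a0, b0⟩, ⟨a1, b1⟩, ⟨a2, b2⟩, ⟨a3, b3⟩⟩
  simp only [mem_nbhd, turan_eq, mem_turan hab (h1 _) (h2 _), mem_turan hcd (h3 _) (h4 _)]
    at a0 b0 a1 b1 a2 b2 a3 b3
  have z : ∀ x y z : Fin 3, Rf x y z ≠ 1 → Rf x y z = 0 := by
    intro x y z h
    rcases Rf_sy.b x y z with e | e
    · exact e
    · exact absurd e h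
  obtain ⟨B, hB, hw⟩ := turan_noCross (g a) (g b) (g c) (g d)
  simp only [List.mem_cons, List.not_mem_nil, or_false] at hB
  rcases hB with rfl | rfl | rfl | rfl
  · exact hw (g (w 0)) (by rw [z _ _ _ a0, z _ _ _ b0])
  · exact hw (g (w 1)) (by rw [a1, z _ _ _ b1])
  · exact hw (g (w 2)) (by rw [z _ _ _ a2, b2])
  · exact hw (g (w 3)) (by rw [a3, b3])

theorem turan_crossCommon (g : Fin n → Fin 3) : crossCommon (turan g) = 0 := by
  unfold crossCommon
  rw [card_eq_zero, filter_eq_empty_iff]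
  rintro ⟨z, w⟩ - ⟨hz, -, hzw, hc⟩
  exact no_cross (hz.ne (by decide)) (hz.ne (by decide)) (hzw _) (hzw _) (hzw _) (hzw _) hc

theorem turan_crossDisjoint (g : Fin n → Fin 3) : crossDisjoint (turan g) = 0 := by
  unfold crossDisjoint
  rw [card_eq_zero, filter_eq_empty_iff]
  rintro ⟨z, w⟩ - ⟨hz, -, hzw, hc⟩
  exact no_cross (hz.ne (by decide)) (hz.ne (by decide)) (hzw _) (hzw _) (hzw _) (hzw _) hc

theorem turan_linkVC (g : Fin n → Fin 3) : LinkVCLe 1 (turan g) := by
  intro v A hv hA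
  by_contra hlt
  obtain ⟨x, hx, y, hy, hxy⟩ := one_lt_card.mp (not_le.mp hlt)
  have hvx : v ≠ x := fun e => hv (e ▸ hx)
  have hvy : v ≠ y := fun e => hv (e ▸ hy)
  have key : ∀ B ⊆ A, ∃ w, v ≠ w ∧ x ≠ w ∧ y ≠ w ∧ ((w ∈ nbhd (turan g) v x) ↔ x ∈ B) ∧
      ((w ∈ nbhd (turan g) v y) ↔ y ∈ B) := by
    intro B hB
    obtain ⟨w, h1, h2, h3⟩ := hA B hB
    refine ⟨w, h1.symm, fun e => h2 (e ▸ hx), fun e => h2 (e ▸ hy), ?_, ?_⟩
    · rw [mem_nbhd, ← h3, mem_filter, Finset.pair_comm x w]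
      exact (and_iff_right hx).symm
    · rw [mem_nbhd, ← h3, mem_filter, Finset.pair_comm y w]
      exact (and_iff_right hy).symm
  obtain ⟨w0, a0, b0, c0, d0, e0⟩ := key ∅ (empty_subset _)
  obtain ⟨w1, a1, b1, c1, d1, e1⟩ := key {x} (singleton_subset_iff.mpr hx)
  obtain ⟨w2, a2, b2, c2, d2, e2⟩ := key {y} (singleton_subset_iff.mpr hy)
  obtain ⟨w3, a3, b3, c3, d3, e3⟩ := key {x, y} (by
    intro z hz
    simp only [mem_insert, mem_singleton] at hz
    rcases hz with rfl | rfl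
    exacts [hx, hy])
  refine no_cross (g := g) (a := v) (b := x) (c := v) (d := y) (w := ![w0, w1, w2, w3]) hvx hvy
    ?_ ?_ ?_ ?_ ?_
  · intro j; fin_cases j; exacts [a0, a1, a2, a3]
  · intro j; fin_cases j; exacts [b0, b1, b2, b3]
  · intro j; fin_cases j; exacts [a0, a1, a2, a3]
  · intro j; fin_cases j; exacts [c0, c1, c2, c3]
  · refine ⟨⟨?_, ?_⟩, ⟨?_, ?_⟩, ⟨?_, ?_⟩, ⟨?_, ?_⟩⟩
    · exact fun h => by simpa using d0.mp h
    · exact fun h => by simpa using e0.mp h
    · exact d1.mpr (mem_singleton_self x)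
    · exact fun h => hxy (mem_singleton.mp (e1.mp h)).symm
    · exact fun h => hxy (mem_singleton.mp (d2.mp h))
    · exact e2.mpr (mem_singleton_self y)
    · exact d3.mpr (mem_insert_self x _)
    · exact e3.mpr (mem_insert_of_mem (mem_singleton_self y))

theorem turan_free' (g : Fin n → Fin 3) : K43Free (turan g) := turan_free g

end Pool.Agent.H22.T34
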