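import Pool.Agent.H22.T34.Defs

/-! Crossing neighbourhoods of pairs, and the VC-dimension of link graphs. -/

set_option autoImplicit false
open Finset
open scoped Classical

namespace Pool.Agent.H22.T34

variable {n : ℕ}

/-- The neighbourhood of the pair `a, b`: the vertices which form an edge with `a` and `b`. -/
noncomputable def nbhd (H : Finset (Finset (Fin n))) (a b : Fin n) : Finset (Fin n) :=
  univ.filter fun w => ({a, b, w} : Finset (Fin n)) ∈ H

/-- The sets `A` and `B` cross, with the witnesses `w 0` in none of them, `w 1` only in `A`, `w 2`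
only in `B`, and `w 3` in both. -/
def Cross (A B : Finset (Fin n)) (w : Fin 4 → Fin n) : Prop :=
  (w 0 ∉ A ∧ w 0 ∉ B) ∧ (w 1 ∈ A ∧ w 1 ∉ B) ∧ (w 2 ∉ A ∧ w 2 ∈ B) ∧ (w 3 ∈ A ∧ w 3 ∈ B)

/-- The number of `(z, w)` with seven different vertices `z 0, z 1, z 2, w 0, ..., w 3` such that the
neighbourhoods of the pairs `z 0, z 1` and `z 0, z 2` cross with the witnesses `w 0, ..., w 3`. -/
noncomputable def crossCommon (H : Finset (Finset (Fin n))) : ℕ :=
  ((univ : Finset ((Fin 3 → Fin n) × (Fin 4 → Fin n))).filter fun p =>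
    Function.Injective p.1 ∧ Function.Injective p.2 ∧ (∀ i j, p.1 i ≠ p.2 j) ∧
      Cross (nbhd H (p.1 0) (p.1 1)) (nbhd H (p.1 0) (p.1 2)) p.2).card

/-- The number of `(z, w)` with eight different vertices `z 0, ..., z 3, w 0, ..., w 3` such that the
neighbourhoods of the disjoint pairs `z 0, z 1` and `z 2, z 3` cross with the witnesses
`w 0, ..., w 3`. -/
noncomputable def crossDisjoint (H : Finset (Finset (Fin n))) : ℕ :=
  ((univ : Finset ((Fin 4 → Fin n) × (Fin 4 → Fin n))).filter fun p =>
    Function.Injective p.1 ∧ Function.Injective p.2 ∧ (∀ i j, p.1 i ≠ p.2 j) ∧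
      Cross (nbhd H (p.1 0) (p.1 1)) (nbhd H (p.1 2) (p.1 3)) p.2).card

/-- The set `A` is shattered by the link graph of `v`: every subset `B` of `A` is the set of the
neighbours in `A`, in the link graph of `v`, of some vertex `w` outside of `A`. -/
def Shattered (H : Finset (Finset (Fin n))) (v : Fin n) (A : Finset (Fin n)) : Prop :=
  ∀ B ⊆ A, ∃ w, w ≠ v ∧ w ∉ A ∧ (A.filter fun x => ({v, w, x} : Finset (Fin n)) ∈ H) = B

/-- All link graphs of `H` have VC-dimension at most `d` (where a set has to be shattered by the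
neighbourhoods of vertices outside of it). -/
def LinkVCLe (d : ℕ) (H : Finset (Finset (Fin n))) : Prop :=
  ∀ (v : Fin n) (A : Finset (Fin n)), v ∉ A → Shattered H v A → A.card ≤ d

end Pool.Agent.H22.T34
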